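import Pool.Agent.Helper70.DU.Defs

/-!
# Project DU: the infinite version of the words used when the machine does not halt

The words are indexed by `ℕ`; the pointers are natural numbers and the tape is a finite set.
-/

set_option autoImplicit false

namespace Pool.Agent.Helper70.DU

variable {R : ℕ} {Q W : Type} [DecidableEq Q]

/-- The pointer word with its star at `j`. -/
def ptrW (j x : ℕ) : K3 := if x < j then .lo else if x = j then .st else .hi

/-- The invariant: the word `f`, with registers pointing at `p`, describes a reachable configuration. -/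
def InvW (T : Mach R Q W) (p : Reg R → ℕ) (f : ℕ → Sym Q) : Prop :=
  ∃ (q : Q) (P : Finset ℕ), p .b ∈ P ∧ p .t ∈ P ∧ (∀ i, p (.c i) ∈ P) ∧
    (∀ x ∈ P, p .b ≤ x ∧ x ≤ p .t) ∧
    Reach T none q (fun i => (P.filter (fun x => x < p (.c i))).card) ∧
    ∀ x, f x = .cfg q (if x ∈ P then .act else if p .b < x ∧ x < p .t then .pas else .und)

/-- The legitimate words indexed by `ℕ`. -/
def AmW (T : Mach R Q W) : Set (ℕ → El R Q) :=
  {a | ∃ (j : ℕ) (p : Reg R → ℕ), (∀ x, (a x).k = ptrW j x) ∧
    (∀ x i, (a x).r i = ptrW (p i) x) ∧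
    ((∃ x, (a x).f = .bot) ∨ InvW T p (fun x => (a x).f))}

/-- The word with `k` and all registers equal to the pointer word `j`, and `f = bot`. -/
def wdW (R : ℕ) (Q : Type) (j : ℕ) : ℕ → El R Q :=
  fun x => ⟨ptrW j x, fun _ => ptrW j x, .bot⟩

end Pool.Agent.Helper70.DU
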