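import Pool.Agent.Helper70.DU.Om.Defs

namespace Pool.Agent.Helper70.DU

variable {R : ℕ} {Q W : Type} [DecidableEq Q]

namespace DUNW1aux

theorem ptr_self (j : ℕ) : ptrW j j = .st := by
  unfold ptrW
  simp

theorem ptr_eq_st (j x : ℕ) : ptrW j x = .st ↔ x = j := by
  unfold ptrW
  by_cases h1 : x < j
  · simp [h1, ne_of_lt h1]
  · by_cases h2 : x = j
    · simp [h2]
    · simp [h1, h2]

theorem ptr_inf (i j x : ℕ) : (ptrW i x).inf (ptrW j x) = ptrW (max i j) x := by
  unfold ptrW
  rcases le_total i j with h | h
  · rw [max_eq_right h]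
    by_cases h1 : x < i
    · have h2 : x < j := lt_of_lt_of_le h1 h
      simp [h1, h2, K3.inf, K3.toNat]
    · by_cases h3 : x = i
      · subst h3
        by_cases h4 : x < j
        · simp [h4, K3.inf, K3.toNat]
        · have h5 : x = j := le_antisymm h (not_lt.mp h4)
          subst h5
          simp [K3.inf]
      · by_cases h4 : x < j
        · simp [h1, h3, h4, K3.inf, K3.toNat]
        · by_cases h5 : x = j
          · subst h5
            simp [h1, h3, K3.inf, K3.toNat]
          · simp [h1, h3, h4, h5, K3.inf]
  · rw [max_eq_left h]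
    by_cases h1 : x < j
    · have h2 : x < i := lt_of_lt_of_le h1 h
      simp [h1, h2, K3.inf]
    · by_cases h3 : x = j
      · subst h3
        by_cases h4 : x < i
        · simp [h4, K3.inf, K3.toNat]
        · have h5 : x = i := le_antisymm h (not_lt.mp h4)
          subst h5
          simp [K3.inf]
      · by_cases h4 : x < i
        · simp [h1, h3, h4, K3.inf, K3.toNat]
        · by_cases h5 : x = i
          · subst h5
            simp [h1, h3, K3.inf, K3.toNat]
          · simp [h1, h3, h4, h5, K3.inf]

theorem ptr_sup (i j x : ℕ) : (ptrW i x).sup (ptrW j x) = ptrW (min i j) x := by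
  unfold ptrW
  rcases le_total i j with h | h
  · rw [min_eq_left h]
    by_cases h1 : x < i
    · have h2 : x < j := lt_of_lt_of_le h1 h
      simp [h1, h2, K3.sup, K3.toNat]
    · by_cases h3 : x = i
      · subst h3
        by_cases h4 : x < j
        · simp [h4, K3.sup, K3.toNat]
        · have h5 : x = j := le_antisymm h (not_lt.mp h4)
          subst h5
          simp [K3.sup]
      · by_cases h4 : x < j
        · simp [h1, h3, h4, K3.sup, K3.toNat]
        · by_cases h5 : x = j
          · subst h5
            simp [h1, h3, K3.sup, K3.toNat]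
          · simp [h1, h3, h4, h5, K3.sup]
  · rw [min_eq_right h]
    by_cases h1 : x < j
    · have h2 : x < i := lt_of_lt_of_le h1 h
      simp [h1, h2, K3.sup]
    · by_cases h3 : x = j
      · subst h3
        by_cases h4 : x < i
        · simp [h4, K3.sup, K3.toNat]
        · have h5 : x = i := le_antisymm h (not_lt.mp h4)
          subst h5
          simp [K3.sup]
      · by_cases h4 : x < i
        · simp [h1, h3, h4, K3.sup, K3.toNat]
        · by_cases h5 : x = i
          · subst h5
            simp [h1, h3, K3.sup, K3.toNat]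
          · simp [h1, h3, h4, h5, K3.sup]

end DUNW1aux

open DUNW1aux in
/-- DU-N1.  -/
theorem AmW_easy (T : Mach R Q W) (o : Op R W)
    (ho : o = .comb ∨ o = .inf ∨ o = .sup ∨ (∃ i, o = .pr i) ∨ o = .g ∨ (∃ i, o = .fix i) ∨
      o = .init) :
    ∀ a ∈ AmW T, ∀ b ∈ AmW T, ∀ c ∈ AmW T, ∀ d ∈ AmW T,
      (fun x => opM T o (a x) (b x) (c x) (d x)) ∈ AmW T := by
  intro a ha b hb c hc d _
  obtain ⟨ja, pa, hka, hra, hfa⟩ := ha
  obtain ⟨jb, pb, hkb, hrb, hfb⟩ := hb
  obtain ⟨jc, pc, hkc, hrc, hfc⟩ := hc
  rcases ho with rfl | rfl | rfl | ⟨i, rfl⟩ | rfl | ⟨i, rfl⟩ | rfl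
  · exact ⟨ja, pb, fun x => hka x, fun x i => hrb x i, hfb⟩
  · refine ⟨max ja jb, pa, fun x => ?_, fun x i => hra x i, hfa⟩
    show ((a x).k).inf (b x).k = _
    rw [hka, hkb, ptr_inf]
  · refine ⟨min ja jb, pa, fun x => ?_, fun x i => hra x i, hfa⟩
    show ((a x).k).sup (b x).k = _
    rw [hka, hkb, ptr_sup]
  · exact ⟨pa i, pa, fun x => hra x i, fun x i => hra x i, hfa⟩
  · refine ⟨ja, pa, fun x => hka x, fun x i => hra x i, Or.inl ⟨jb, ?_⟩⟩
    show (if (b jb).k = .st then Sym.bot else Sym.dlt) = Sym.bot
    rw [hkb, ptr_self, if_pos rfl]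
  · -- fix; the second argument is the pointer
    by_cases hij : pa i = jb
    · refine ⟨ja, pa, fun x => hka x, fun x i' => ?_, ?_⟩
      · show Function.update (a x).r i (b x).k i' = _
        by_cases h1 : i' = i
        · subst h1
          rw [Function.update_self, hkb, hij]
        · rw [Function.update_of_ne h1]
          exact hra x i'
      · have h2 : (fun x => (opM T (Op.fix i) (a x) (b x) (c x) (d x)).f) = fun x => (a x).f := by
          funext x
          show (if (a x).r i = (b x).k then (a x).f else Sym.bot) = (a x).f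
          rw [hra, hkb, hij, if_pos rfl]
        rcases hfa with ⟨x, hx⟩ | hinv
        · exact Or.inl ⟨x, (congrFun h2 x).trans hx⟩
        · right
          rw [h2]
          exact hinv
    · refine ⟨ja, Function.update pa i jb, fun x => hka x, fun x i' => ?_, Or.inl ⟨jb, ?_⟩⟩
      · show Function.update (a x).r i (b x).k i' = _
        by_cases h1 : i' = i
        · subst h1
          rw [Function.update_self, hkb, Function.update_self]
        · rw [Function.update_of_ne h1, Function.update_of_ne h1]
          exact hra x i'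
      · show (if (a jb).r i = (b jb).k then (a jb).f else Sym.bot) = Sym.bot
        rw [if_neg]
        rw [hra, hkb, ptr_self, ptr_eq_st]
        exact fun h => hij h.symm
  · refine ⟨ja, fun _ => ja, fun x => hka x, fun x i => hka x, Or.inr ?_⟩
    refine ⟨T.q0, {ja}, by simp, by simp, fun _ => by simp, ?_, ?_, ?_⟩
    · intro x hx
      rw [Finset.mem_singleton] at hx
      subst hx
      exact ⟨le_rfl, le_rfl⟩
    · have h1 : (fun _ : Fin R => (({ja} : Finset (ℕ)).filter (fun x => x < ja)).card) =
          fun _ => 0 := by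
        funext _
        rw [Finset.card_eq_zero, Finset.filter_eq_empty_iff]
        intro x hx
        rw [Finset.mem_singleton] at hx
        subst hx
        exact lt_irrefl x
      rw [h1]
      exact Reach.start
    · intro x
      show Sym.cfg T.q0 (if (a x).k = .st then Flag.act else Flag.und) = _
      rw [hka]
      by_cases h1 : x = ja
      · subst h1
        simp [ptr_self]
      · have h2 : ¬ (ptrW ja x = K3.st) := fun h => h1 ((ptr_eq_st ja x).mp h)
        have h3 : ¬ (ja < x ∧ x < ja) := fun h => lt_asymm h.1 h.2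
        rw [if_neg h2, if_neg (by simpa using h1), if_neg h3]

end Pool.Agent.Helper70.DU
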