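import Pool.Agent.Helper70.DU.Om.Defs

namespace Pool.Agent.Helper70.DU

variable {R : ℕ} {Q W : Type} [DecidableEq Q]

/-- DU-N3.  -/
theorem AmW_dead (T : Mach R Q W) (hT : ¬ Halts T) (o : Op R W)
    (ho : o = .merge ∨ o = .unb ∨ o = .fin) :
    ∀ a ∈ AmW T, ∀ b ∈ AmW T, ∀ c ∈ AmW T, ∀ d ∈ AmW T,
      (fun x => opM T o (a x) (b x) (c x) (d x)) ∈ AmW T := by
  intro a ha b hb c _ d hd
  obtain ⟨j, p, hk, hr, hf⟩ := ha
  rcases ho with rfl | rfl | rfl
  · -- merge
    obtain ⟨jd, pd, _, _, hfd⟩ := hd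
    have hx : ∃ x, (d x).f ≠ .acc := by
      rcases hfd with ⟨x, hx⟩ | ⟨q, P, _, _, _, _, _, h⟩
      · exact ⟨x, by rw [hx]; simp⟩
      · refine ⟨jd, ?_⟩
        have h1 := h jd
        simp only at h1
        rw [h1]
        simp
    obtain ⟨x, hx⟩ := hx
    refine ⟨j, p, hk, hr, Or.inl ⟨x, ?_⟩⟩
    simp only [opM]
    rw [if_neg hx]
  · -- unb
    obtain ⟨jc, pc, hkc, _, _⟩ := hb
    refine ⟨j, Function.update p .t jc, hk, ?_, Or.inl ?_⟩
    · intro x i
      by_cases hi : i = .t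
      · subst hi
        simp only [opM, Function.update_self]
        exact hkc x
      · simp only [opM, Function.update_of_ne hi]
        exact hr x i
    · rcases hf with ⟨x, hx⟩ | ⟨q, P, _, _, _, _, hreach, h⟩
      · exact ⟨x, by simp only [opM, hx, shiftF]⟩
      · have hq : q ≠ T.qh := fun e => hT ⟨_, e ▸ hreach⟩
        refine ⟨j, ?_⟩
        have h1 := h j
        simp only [opM, shiftF]
        simp only at h1
        rw [h1]
        simp only [if_neg hq]
  · -- fin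
    refine ⟨j, p, hk, hr, Or.inl ?_⟩
    rcases hf with ⟨x, hx⟩ | ⟨q, P, _, _, _, _, hreach, h⟩
    · refine ⟨x, ?_⟩
      simp only [opM, hx, finF, ite_self]
    · have hq : q ≠ T.qh := fun e => hT ⟨_, e ▸ hreach⟩
      refine ⟨j, ?_⟩
      have h1 := h j
      simp only at h1
      simp only [opM, h1, finF, if_neg hq, ite_self]

end Pool.Agent.Helper70.DU
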