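import Pool.Agent.Helper70.DU.Om.Defs

namespace Pool.Agent.Helper70.DU

variable {R : ℕ} {Q W : Type} [DecidableEq Q]

namespace DUNW5aux

theorem ptr_lt {j x : ℕ} (h : x < j) : ptrW j x = .lo := by
  unfold ptrW
  rw [if_pos h]

theorem ptr_self (j : ℕ) : ptrW j j = .st := by
  unfold ptrW
  rw [if_neg (lt_irrefl j), if_pos rfl]

theorem ptr_gt {j x : ℕ} (h : j < x) : ptrW j x = .hi := by
  unfold ptrW
  rw [if_neg (not_lt.2 h.le), if_neg h.ne']

theorem ptr_inj {i j : ℕ} (h : ∀ x, ptrW i x = ptrW j x) : i = j := by
  have h1 := h i
  rw [ptr_self] at h1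
  rcases lt_trichotomy i j with h2 | h2 | h2
  · rw [ptr_lt h2] at h1
    cases h1
  · exact h2
  · rw [ptr_gt h2] at h1
    cases h1

theorem wInc_eq (u v : K3) (z z' : Flag) (h : wInc u v z = some z') : z' = z := by
  rcases u <;> rcases v <;> rcases z <;> simp [wInc] at h <;> exact h.symm

theorem wDec_eq (u v : K3) (z z' : Flag) (h : wDec u v z = some z') : z' = z := by
  rcases u <;> rcases v <;> rcases z <;> simp [wDec] at h <;> exact h.symm

omit [DecidableEq Q] in
theorem shiftF_ne {s : Q → Option Q} {w : Flag → Option Flag} {q : Q} {z : Flag}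
    (h : shiftF s w (.cfg q z) ≠ .bot) :
    ∃ q' z', s q = some q' ∧ w z = some z' ∧ shiftF s w (.cfg q z) = .cfg q' z' := by
  simp only [shiftF] at h ⊢
  split at h
  · next q' z' h1 h2 =>
    exact ⟨q', z', h1, h2, rfl⟩
  · exact absurd rfl h

omit [DecidableEq Q] in
theorem shiftF_bot {s : Q → Option Q} {w : Flag → Option Flag} :
    shiftF s w (.bot : Sym Q) = .bot := rfl

theorem inc_core {e j : ℕ} {P : Finset (ℕ)} {fg : ℕ → Flag}
    (hact : ∀ x, fg x = .act ↔ x ∈ P)
    (h : ∀ x, ∃ z', wInc (ptrW e x) (ptrW j x) (fg x) = some z') :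
    e < j ∧ j ∈ P ∧ ∀ x, e < x → x < j → x ∉ P := by
  have h1 : e < j := by
    obtain ⟨z', hz'⟩ := h e
    rw [ptr_self] at hz'
    rcases lt_trichotomy e j with h2 | h2 | h2
    · exact h2
    · subst h2
      rw [ptr_self] at hz'
      simp [wInc] at hz'
    · rw [ptr_gt h2] at hz'
      simp [wInc] at hz'
  refine ⟨h1, ?_, ?_⟩
  · obtain ⟨z', hz'⟩ := h j
    rw [ptr_self, ptr_gt h1] at hz'
    rw [← hact]
    cases hz : fg j
    · rw [hz] at hz'; simp [wInc] at hz'
    · rw [hz] at hz'; simp [wInc] at hz'
    · rfl
  · intro x hx1 hx2 hxP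
    obtain ⟨z', hz'⟩ := h x
    rw [ptr_gt hx1, ptr_lt hx2, (hact x).2 hxP] at hz'
    simp [wInc] at hz'

theorem dec_core {e j : ℕ} {P : Finset (ℕ)} {fg : ℕ → Flag}
    (hact : ∀ x, fg x = .act ↔ x ∈ P)
    (h : ∀ x, ∃ z', wDec (ptrW e x) (ptrW j x) (fg x) = some z') :
    j < e ∧ j ∈ P ∧ ∀ x, j < x → x < e → x ∉ P := by
  have h1 : j < e := by
    obtain ⟨z', hz'⟩ := h e
    rw [ptr_self] at hz'
    rcases lt_trichotomy e j with h2 | h2 | h2
    · rw [ptr_lt h2] at hz'
      simp [wDec] at hz'
    · subst h2
      rw [ptr_self] at hz'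
      simp [wDec] at hz'
    · exact h2
  refine ⟨h1, ?_, ?_⟩
  · obtain ⟨z', hz'⟩ := h j
    rw [ptr_self, ptr_lt h1] at hz'
    rw [← hact]
    cases hz : fg j
    · rw [hz] at hz'; simp [wDec] at hz'
    · rw [hz] at hz'; simp [wDec] at hz'
    · rfl
  · intro x hx1 hx2 hxP
    obtain ⟨z', hz'⟩ := h x
    rw [ptr_lt hx2, ptr_gt hx1, (hact x).2 hxP] at hz'
    simp [wDec] at hz'

theorem card_next {e j : ℕ} {P : Finset (ℕ)} (he : e ∈ P) (h1 : e < j)
    (h2 : ∀ x, e < x → x < j → x ∉ P) :
    (P.filter (fun x => x < j)).card = (P.filter (fun x => x < e)).card + 1 := by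
  have h3 : P.filter (fun x => x < j) = insert e (P.filter (fun x => x < e)) := by
    ext x
    simp only [Finset.mem_filter, Finset.mem_insert]
    constructor
    · rintro ⟨hx, hxj⟩
      rcases lt_trichotomy x e with h | h | h
      · exact Or.inr ⟨hx, h⟩
      · exact Or.inl h
      · exact absurd hx (h2 x h hxj)
    · rintro (h | ⟨hx, hxe⟩)
      · subst h
        exact ⟨he, h1⟩
      · exact ⟨hx, hxe.trans h1⟩
  rw [h3, Finset.card_insert_of_notMem]
  simp

/-- The flag word of the invariant. -/
def fw (P : Finset (ℕ)) (pb pt x : ℕ) : Flag :=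
  if x ∈ P then .act else if pb < x ∧ x < pt then .pas else .und

theorem fw_act (P : Finset (ℕ)) (pb pt x : ℕ) :
    fw P pb pt x = .act ↔ x ∈ P := by
  unfold fw
  constructor
  · intro h
    by_contra hx
    rw [if_neg hx] at h
    split_ifs at h
  · intro hx
    rw [if_pos hx]

omit [DecidableEq Q] in
/-- Putting an invariant together. -/
theorem mkInv {T : Mach R Q W} {w : W} {p p2 : Reg R → ℕ} {q q' : Q}
    {P : Finset (ℕ)} {f2 : ℕ → Sym Q}
    (hb : p .b ∈ P) (ht : p .t ∈ P) (hbd : ∀ x ∈ P, p .b ≤ x ∧ x ≤ p .t)
    (hreach : Reach T none q (fun i => (P.filter (fun x => x < p (.c i))).card))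
    (e1 : p2 .b = p .b) (e2 : p2 .t = p .t) (e3 : ∀ i, p2 (.c i) ∈ P)
    (hn : T.next w q = some q')
    (hk : KStep (T.kind w) (fun i => (P.filter (fun x => x < p (.c i))).card)
      (fun i => (P.filter (fun x => x < p2 (.c i))).card))
    (hf : ∀ x, f2 x = .cfg q' (fw P (p .b) (p .t) x)) : InvW T p2 f2 := by
  refine ⟨q', P, ?_, ?_, e3, ?_, ?_, ?_⟩
  · rw [e1]; exact hb
  · rw [e2]; exact ht
  · rw [e1, e2]; exact hbd
  · refine Reach.step q q' _ _ w hreach hn hk ?_
    intro n hn2
    cases hn2
  · intro x
    rw [hf x, e1, e2]
    rfl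

end DUNW5aux

open DUNW5aux in
/-- DU-N5. (Four cases for the kind of `w`.) -/
theorem AmW_instr (T : Mach R Q W) (w : W) :
    ∀ a ∈ AmW T, ∀ b ∈ AmW T, ∀ c ∈ AmW T, ∀ d ∈ AmW T,
      (fun x => opM T (.instr w) (a x) (b x) (c x) (d x)) ∈ AmW T := by
  intro a ha b hb c _ d _
  obtain ⟨j, p, hak, har, haf⟩ := ha
  obtain ⟨j', p', hbk, -, -⟩ := hb
  cases hkind : T.kind w with
  | inc i =>
    refine ⟨j, Function.update p (.c i) j', ?_, ?_, ?_⟩
    · intro x
      simp only [opM, hkind, instrOp]
      exact hak x
    · intro x i'
      simp only [opM, hkind, instrOp]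
      by_cases hi : i' = .c i
      · subst hi
        rw [Function.update_self, Function.update_self, hbk]
      · rw [Function.update_of_ne hi, Function.update_of_ne hi, har]
    · by_cases hbot : ∃ x, (opM T (.instr w) (a x) (b x) (c x) (d x)).f = .bot
      · exact Or.inl hbot
      · right
        push Not at hbot
        simp only [opM, hkind, instrOp] at hbot ⊢
        rcases haf with ⟨x, hx⟩ | hinv
        · exact absurd (by rw [hx]; rfl) (hbot x)
        obtain ⟨q, P, hPb, hPt, hPc, hbd, hreach, hf⟩ := hinv
        have hf' : ∀ x, (a x).f = .cfg q (fw P (p .b) (p .t) x) := hf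
        have hst : ∀ x, ∃ q' z', T.next w q = some q' ∧
            wInc (ptrW (p (.c i)) x) (ptrW j' x) (fw P (p .b) (p .t) x) = some z' ∧
            shiftF (T.next w) (wInc ((a x).r (.c i)) (b x).k) (a x).f = .cfg q' z' := by
          intro x
          have h1 := hbot x
          rw [hf' x] at h1 ⊢
          obtain ⟨q', z', h2, h3, h4⟩ := shiftF_ne h1
          rw [har, hbk] at h3
          exact ⟨q', z', h2, h3, h4⟩
        obtain ⟨q', z0, hq', -, -⟩ := hst j
        obtain ⟨g1, g2, g3⟩ := inc_core (fw_act P (p .b) (p .t))
          (fun x => by obtain ⟨_, z', _, h, _⟩ := hst x; exact ⟨z', h⟩)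
        refine mkInv (w := w) (q' := q') hPb hPt hbd hreach ?_ ?_ ?_ hq' ?_ ?_
        · rw [Function.update_of_ne]; simp
        · rw [Function.update_of_ne]; simp
        · intro i'
          by_cases hi : i' = i
          · subst hi
            rw [Function.update_self]; exact g2
          · rw [Function.update_of_ne (by simpa using hi)]; exact hPc i'
        · rw [hkind]
          show _ = Function.update _ _ _
          funext i'
          by_cases hi : i' = i
          · subst hi
            rw [Function.update_self, Function.update_self]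
            exact card_next (hPc i') g1 g3
          · rw [Function.update_of_ne hi]
            rw [Function.update_of_ne (show (Reg.c i' : Reg R) ≠ .c i by simpa using hi)]
        · intro x
          obtain ⟨q2, z', h1, h2, h3⟩ := hst x
          rw [h3, wInc_eq _ _ _ _ h2]
          rw [hq'] at h1
          rw [Option.some.inj h1]
  | dec i =>
    refine ⟨j, Function.update p (.c i) j', ?_, ?_, ?_⟩
    · intro x
      simp only [opM, hkind, instrOp]
      exact hak x
    · intro x i'
      simp only [opM, hkind, instrOp]
      by_cases hi : i' = .c i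
      · subst hi
        rw [Function.update_self, Function.update_self, hbk]
      · rw [Function.update_of_ne hi, Function.update_of_ne hi, har]
    · by_cases hbot : ∃ x, (opM T (.instr w) (a x) (b x) (c x) (d x)).f = .bot
      · exact Or.inl hbot
      · right
        push Not at hbot
        simp only [opM, hkind, instrOp] at hbot ⊢
        rcases haf with ⟨x, hx⟩ | hinv
        · exact absurd (by rw [hx]; rfl) (hbot x)
        obtain ⟨q, P, hPb, hPt, hPc, hbd, hreach, hf⟩ := hinv
        have hf' : ∀ x, (a x).f = .cfg q (fw P (p .b) (p .t) x) := hf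
        have hst : ∀ x, ∃ q' z', T.next w q = some q' ∧
            wDec (ptrW (p (.c i)) x) (ptrW j' x) (fw P (p .b) (p .t) x) = some z' ∧
            shiftF (T.next w) (wDec ((a x).r (.c i)) (b x).k) (a x).f = .cfg q' z' := by
          intro x
          have h1 := hbot x
          rw [hf' x] at h1 ⊢
          obtain ⟨q', z', h2, h3, h4⟩ := shiftF_ne h1
          rw [har, hbk] at h3
          exact ⟨q', z', h2, h3, h4⟩
        obtain ⟨q', z0, hq', -, -⟩ := hst j
        obtain ⟨g1, g2, g3⟩ := dec_core (fw_act P (p .b) (p .t))
          (fun x => by obtain ⟨_, z', _, h, _⟩ := hst x; exact ⟨z', h⟩)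
        have hcard := card_next g2 g1 g3
        refine mkInv (w := w) (q' := q') hPb hPt hbd hreach ?_ ?_ ?_ hq' ?_ ?_
        · rw [Function.update_of_ne]; simp
        · rw [Function.update_of_ne]; simp
        · intro i'
          by_cases hi : i' = i
          · subst hi
            rw [Function.update_self]; exact g2
          · rw [Function.update_of_ne (by simpa using hi)]; exact hPc i'
        · rw [hkind]
          show _ ∧ _ = Function.update _ _ _
          constructor
          · show 0 < (P.filter (fun x => x < p (.c i))).card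
            rw [hcard]; exact Nat.succ_pos _
          · funext i'
            by_cases hi : i' = i
            · subst hi
              rw [Function.update_self, Function.update_self]
              show _ = (P.filter (fun x => x < p (.c i'))).card - 1
              rw [hcard, Nat.add_sub_cancel]
            · rw [Function.update_of_ne hi]
              rw [Function.update_of_ne (show (Reg.c i' : Reg R) ≠ .c i by simpa using hi)]
        · intro x
          obtain ⟨q2, z', h1, h2, h3⟩ := hst x
          rw [h3, wDec_eq _ _ _ _ h2]
          rw [hq'] at h1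
          rw [Option.some.inj h1]
  | zero i =>
    refine ⟨j, p, ?_, ?_, ?_⟩
    · intro x
      simp only [opM, hkind, instrOp]
      exact hak x
    · intro x i'
      simp only [opM, hkind, instrOp]
      exact har x i'
    · by_cases hbot : ∃ x, (opM T (.instr w) (a x) (b x) (c x) (d x)).f = .bot
      · exact Or.inl hbot
      · right
        push Not at hbot
        simp only [opM, hkind, instrOp] at hbot ⊢
        have hcond : ∀ x, (a x).r (.c i) = (a x).r .b := by
          intro x
          by_contra hne
          exact hbot x (by rw [if_neg hne])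
        have hbot2 : ∀ x, shiftF (T.next w) some (a x).f ≠ .bot := by
          intro x
          have h1 := hbot x
          rwa [if_pos (hcond x)] at h1
        rcases haf with ⟨x, hx⟩ | hinv
        · exact absurd (by rw [hx]; rfl) (hbot2 x)
        obtain ⟨q, P, hPb, hPt, hPc, hbd, hreach, hf⟩ := hinv
        have hf' : ∀ x, (a x).f = .cfg q (fw P (p .b) (p .t) x) := hf
        have hpe : p (.c i) = p .b := by
          apply ptr_inj
          intro x
          rw [← har, ← har]
          exact hcond x
        have hst : ∀ x, ∃ q' z', T.next w q = some q' ∧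
            some (fw P (p .b) (p .t) x) = some z' ∧
            shiftF (T.next w) some (a x).f = .cfg q' z' := by
          intro x
          have h1 := hbot2 x
          rw [hf' x] at h1 ⊢
          exact shiftF_ne h1
        obtain ⟨q', z0, hq', -, -⟩ := hst j
        refine mkInv (w := w) (q' := q') hPb hPt hbd hreach rfl rfl hPc hq' ?_ ?_
        · rw [hkind]
          show _ = 0 ∧ _ = _
          refine ⟨?_, rfl⟩
          show (P.filter (fun x => x < p (.c i))).card = 0
          rw [hpe, Finset.card_eq_zero, Finset.filter_eq_empty_iff]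
          intro x hx
          exact not_lt.2 (hbd x hx).1
        · intro x
          obtain ⟨q2, z', h1, h2, h3⟩ := hst x
          rw [if_pos (hcond x), h3, Option.some.inj h2]
          rw [hq'] at h1
          rw [Option.some.inj h1]
  | copy i i2 =>
    refine ⟨j, Function.update p (.c i) (p (.c i2)), ?_, ?_, ?_⟩
    · intro x
      simp only [opM, hkind, instrOp]
      exact hak x
    · intro x i'
      simp only [opM, hkind, instrOp]
      by_cases hi : i' = .c i
      · subst hi
        rw [Function.update_self, Function.update_self, har]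
      · rw [Function.update_of_ne hi, Function.update_of_ne hi, har]
    · by_cases hbot : ∃ x, (opM T (.instr w) (a x) (b x) (c x) (d x)).f = .bot
      · exact Or.inl hbot
      · right
        push Not at hbot
        simp only [opM, hkind, instrOp] at hbot ⊢
        rcases haf with ⟨x, hx⟩ | hinv
        · exact absurd (by rw [hx]; rfl) (hbot x)
        obtain ⟨q, P, hPb, hPt, hPc, hbd, hreach, hf⟩ := hinv
        have hf' : ∀ x, (a x).f = .cfg q (fw P (p .b) (p .t) x) := hf
        have hst : ∀ x, ∃ q' z', T.next w q = some q' ∧
            some (fw P (p .b) (p .t) x) = some z' ∧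
            shiftF (T.next w) some (a x).f = .cfg q' z' := by
          intro x
          have h1 := hbot x
          rw [hf' x] at h1 ⊢
          exact shiftF_ne h1
        obtain ⟨q', z0, hq', -, -⟩ := hst j
        refine mkInv (w := w) (q' := q') hPb hPt hbd hreach ?_ ?_ ?_ hq' ?_ ?_
        · rw [Function.update_of_ne]; simp
        · rw [Function.update_of_ne]; simp
        · intro i'
          by_cases hi : i' = i
          · subst hi
            rw [Function.update_self]; exact hPc i2
          · rw [Function.update_of_ne (by simpa using hi)]; exact hPc i'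
        · rw [hkind]
          show _ = Function.update _ _ _
          funext i'
          by_cases hi : i' = i
          · subst hi
            rw [Function.update_self, Function.update_self]
          · rw [Function.update_of_ne hi]
            rw [Function.update_of_ne (show (Reg.c i' : Reg R) ≠ .c i by simpa using hi)]
        · intro x
          obtain ⟨q2, z', h1, h2, h3⟩ := hst x
          rw [h3, Option.some.inj h2]
          rw [hq'] at h1
          rw [Option.some.inj h1]

end Pool.Agent.Helper70.DU
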