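import Pool.Agent.Helper70.DU.Om.Defs
import Pool.Agent.Helper70.DU.Om.N5

namespace Pool.Agent.Helper70.DU

variable {R : ℕ} {Q W : Type} [DecidableEq Q]

namespace DUNW4aux

open DUNW5aux

theorem build_lt {e j : ℕ} {fg : ℕ → Flag}
    (h : ∃ z', wBuild (ptrW e e) (ptrW j e) (fg e) = some z') : e < j := by
  obtain ⟨z', hz'⟩ := h
  rw [ptr_self] at hz'
  rcases lt_trichotomy e j with h2 | h2 | h2
  · exact h2
  · subst h2
    rw [ptr_self] at hz'
    simp [wBuild] at hz'
  · rw [ptr_gt h2] at hz'
    simp [wBuild] at hz'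

theorem fw_of_mem {P : Finset ℕ} {b t x : ℕ} (h : x ∈ P) : fw P b t x = .act := by
  unfold fw
  rw [if_pos h]

theorem fw_pas {P : Finset ℕ} {b t x : ℕ} (h : x ∉ P) (h1 : b < x) (h2 : x < t) :
    fw P b t x = .pas := by
  unfold fw
  rw [if_neg h, if_pos ⟨h1, h2⟩]

theorem fw_und {P : Finset ℕ} {b t x : ℕ} (h : x ∉ P) (h1 : ¬ (b < x ∧ x < t)) :
    fw P b t x = .und := by
  unfold fw
  rw [if_neg h, if_neg h1]

theorem build_flag {b e j : ℕ} {P : Finset ℕ} (hej : e < j) (heP : e ∈ P)
    (hbd : ∀ x ∈ P, b ≤ x ∧ x ≤ e) (x : ℕ) (z' : Flag)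
    (h : wBuild (ptrW e x) (ptrW j x) (fw P b e x) = some z') :
    z' = fw (insert j P) b j x := by
  rcases lt_trichotomy x e with h1 | h1 | h1
  · rw [ptr_lt h1, ptr_lt (h1.trans hej)] at h
    have h2 : z' = fw P b e x := by
      simpa [wBuild] using h.symm
    rw [h2]
    have hxj : x ≠ j := (h1.trans hej).ne
    by_cases hx : x ∈ P
    · rw [fw_of_mem hx, fw_of_mem (Finset.mem_insert_of_mem hx)]
    · have hx' : x ∉ insert j P := by
        rw [Finset.mem_insert, not_or]
        exact ⟨hxj, hx⟩
      by_cases hb : b < x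
      · rw [fw_pas hx hb h1, fw_pas hx' hb (h1.trans hej)]
      · rw [fw_und hx (fun h => hb h.1), fw_und hx' (fun h => hb h.1)]
  · subst h1
    rw [ptr_self, ptr_lt hej, fw_of_mem heP] at h
    rw [fw_of_mem (Finset.mem_insert_of_mem heP)]
    simpa [wBuild] using h.symm
  · have hxP : x ∉ P := fun hx => absurd (hbd x hx).2 (not_le.mpr h1)
    have hbx : b < x := lt_of_le_of_lt (hbd e heP).1 h1
    have hfu : fw P b e x = .und := fw_und hxP (fun h => lt_asymm h.2 h1)
    rw [ptr_gt h1, hfu] at h
    rcases lt_trichotomy x j with h2 | h2 | h2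
    · rw [ptr_lt h2] at h
      rw [fw_pas (by rw [Finset.mem_insert, not_or]; exact ⟨h2.ne, hxP⟩) hbx h2]
      simpa [wBuild] using h.symm
    · subst h2
      rw [ptr_self] at h
      rw [fw_of_mem (Finset.mem_insert_self _ _)]
      simpa [wBuild] using h.symm
    · rw [ptr_gt h2] at h
      rw [fw_und (by rw [Finset.mem_insert, not_or]; exact ⟨h2.ne', hxP⟩)
        (fun h => lt_asymm h.2 h2)]
      simpa [wBuild] using h.symm

end DUNW4aux

open DUNW4aux DUNW5aux in
/-- DU-N4 for words indexed by `ℕ`. -/
theorem AmW_build (T : Mach R Q W) :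
    ∀ a ∈ AmW T, ∀ b ∈ AmW T, ∀ c ∈ AmW T, ∀ d ∈ AmW T,
      (fun x => opM T .build (a x) (b x) (c x) (d x)) ∈ AmW T := by
  intro a ha b hb c _ d _
  obtain ⟨j, p, hak, har, haf⟩ := ha
  obtain ⟨j', p', hbk, -, -⟩ := hb
  refine ⟨j, Function.update p .t j', ?_, ?_, ?_⟩
  · intro x
    exact hak x
  · intro x i'
    show Function.update (a x).r .t (b x).k i' = _
    by_cases hi : i' = .t
    · subst hi
      rw [Function.update_self, Function.update_self, hbk]
    · rw [Function.update_of_ne hi, Function.update_of_ne hi, har]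
  · by_cases hbot : ∃ x, (opM T .build (a x) (b x) (c x) (d x)).f = .bot
    · exact Or.inl hbot
    · right
      push Not at hbot
      rcases haf with ⟨x, hx⟩ | hinv
      · exfalso
        apply hbot x
        show shiftF some (wBuild ((a x).r .t) (b x).k) (a x).f = .bot
        rw [hx]
        rfl
      obtain ⟨q, P, hPb, hPt, hPc, hbd, hreach, hf⟩ := hinv
      have hf' : ∀ x, (a x).f = .cfg q (fw P (p .b) (p .t) x) := hf
      have hst : ∀ x, ∃ z', wBuild (ptrW (p .t) x) (ptrW j' x) (fw P (p .b) (p .t) x) = some z' ∧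
          (opM T .build (a x) (b x) (c x) (d x)).f = .cfg q z' := by
        intro x
        have h1 := hbot x
        have h5 : (opM T .build (a x) (b x) (c x) (d x)).f =
            shiftF some (wBuild ((a x).r .t) (b x).k) (a x).f := rfl
        rw [h5, hf' x] at h1
        rw [h5, hf' x]
        obtain ⟨q', z', h2, h3, h4⟩ := shiftF_ne h1
        rw [har, hbk] at h3
        rw [Option.some.injEq] at h2
        subst h2
        exact ⟨z', h3, h4⟩
      have hlt : p .t < j' := by
        obtain ⟨z', hz', -⟩ := hst (p .t)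
        exact build_lt ⟨z', hz'⟩
      have hjP : j' ∉ P := fun h => absurd (hbd j' h).2 (not_le.mpr hlt)
      have e1 : Function.update p .t j' .b = p .b := Function.update_of_ne (by simp) _ _
      have e2 : Function.update p .t j' .t = j' := Function.update_self _ _ _
      have e3 : ∀ i, Function.update p .t j' (.c i) = p (.c i) := fun i =>
        Function.update_of_ne (by simp) _ _
      refine ⟨q, insert j' P, ?_, ?_, ?_, ?_, ?_, ?_⟩
      · rw [e1]
        exact Finset.mem_insert_of_mem hPb
      · rw [e2]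
        exact Finset.mem_insert_self _ _
      · intro i
        rw [e3]
        exact Finset.mem_insert_of_mem (hPc i)
      · intro x hx
        rw [e1, e2]
        rcases Finset.mem_insert.mp hx with h | h
        · subst h
          exact ⟨((hbd _ hPt).1).trans hlt.le, le_rfl⟩
        · exact ⟨(hbd x h).1, (hbd x h).2.trans hlt.le⟩
      · have h6 : (fun i => ((insert j' P).filter
            (fun x => x < Function.update p .t j' (.c i))).card) =
            (fun i => (P.filter (fun x => x < p (.c i))).card) := by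
          funext i
          rw [e3, Finset.filter_insert, if_neg]
          exact not_lt.mpr ((hbd _ (hPc i)).2.trans hlt.le)
        rw [h6]
        exact hreach
      · intro x
        obtain ⟨z', hz', hv⟩ := hst x
        have h7 := build_flag hlt hPt hbd x z' hz'
        show (opM T .build (a x) (b x) (c x) (d x)).f = _
        rw [hv, h7, e1, e2]
        rfl

end Pool.Agent.Helper70.DU
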