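import Pool.Agent.Helper70.DU.Om.Defs
import Pool.Agent.Helper70.DU.Om.N1
import Pool.Agent.Helper70.DU.Om.N2
import Pool.Agent.Helper70.DU.Om.N3
import Pool.Agent.Helper70.DU.Om.N4
import Pool.Agent.Helper70.DU.Om.N5
import Pool.Agent.Helper70.DU.Om.N8

/-!
# The negative direction, for all algebraic structures at once

If the machine does not halt then the algebra of the words indexed by `ℕ` has a map from its
homomorphisms to the algebra which depends on the values at three elements only, agrees with an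
element on every finite set of homomorphisms, and is not an evaluation.
-/

set_option autoImplicit false

namespace Pool.Agent.Helper70.DU

variable {R : ℕ} {Q W : Type} [DecidableEq Q]

theorem AmW_closed (T : Mach R Q W) (hT : ¬ Halts T) : Closed T (AmW T) := by
  intro o
  cases o with
  | comb => exact AmW_easy T .comb (by simp)
  | inf => exact AmW_easy T .inf (by simp)
  | sup => exact AmW_easy T .sup (by simp)
  | pr i => exact AmW_easy T (.pr i) (by simp)
  | g => exact AmW_easy T .g (by simp)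
  | lab z v w => exact AmW_lab T z v w
  | fix i => exact AmW_easy T (.fix i) (by simp)
  | merge => exact AmW_dead T hT .merge (by simp)
  | init => exact AmW_easy T .init (by simp)
  | build => exact AmW_build T
  | instr w => exact AmW_instr T w
  | unb => exact AmW_dead T hT .unb (by simp)
  | fin => exact AmW_dead T hT .fin (by simp)

namespace DUNWaux

/-- The map which is not an evaluation. -/
def bt (R : ℕ) (Q : Type) (h : (ℕ → El R Q) → El R Q) : El R Q :=
  ⟨(h (wdW R Q 0)).k, (h (wdW R Q 0)).r,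
    if (h (wdW R Q 0)).k = .st ∧ (h (wdW R Q 1)).k = .st then .bot else .dlt⟩

theorem bt_local (T : Mach R Q W) (hA : Closed T (AmW T)) (n : ℕ)
    (h : Fin n → (ℕ → El R Q) → El R Q) (hh : ∀ i, HomOn T (AmW T) (h i)) :
    ∃ a ∈ AmW T, ∀ i, bt R Q (h i) = h i a := by
  classical
  -- bad indices
  have hfin : ∀ i, {j : ℕ | (h i (wdW R Q j)).k = .st ∧
      ¬ ((h i (wdW R Q 0)).k = .st ∧ (h i (wdW R Q 1)).k = .st)}.Finite := by
    intro i
    apply Set.Subsingleton.finite
    rintro j ⟨hj, hn⟩ j' ⟨hj', -⟩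
    by_contra hne
    apply hn
    rcases lt_or_gt_of_ne hne with hlt | hlt
    · exact ⟨homW_two T (h i) hA (hh i) j j' hlt hj hj' 0,
        homW_two T (h i) hA (hh i) j j' hlt hj hj' 1⟩
    · exact ⟨homW_two T (h i) hA (hh i) j' j hlt hj' hj 0,
        homW_two T (h i) hA (hh i) j' j hlt hj' hj 1⟩
  have hunion := Set.finite_iUnion hfin
  obtain ⟨j, hj⟩ := hunion.exists_notMem
  rw [Set.mem_iUnion, not_exists] at hj
  refine ⟨DUNW8aux.bk R Q 0 j, DUNW8aux.bk_mem T 0 j, fun i => ?_⟩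
  rw [DUNW8aux.h_single T (h i) (hh i) 0 j]
  have hiff : (h i (wdW R Q j)).k = .st ↔
      ((h i (wdW R Q 0)).k = .st ∧ (h i (wdW R Q 1)).k = .st) := by
    constructor
    · intro h1
      by_contra h2
      exact hj i ⟨h1, h2⟩
    · intro h1
      exact homW_two T (h i) hA (hh i) 0 1 Nat.zero_lt_one h1.1 h1.2 j
  unfold bt
  by_cases h1 : (h i (wdW R Q j)).k = .st
  · rw [if_pos h1, if_pos (hiff.mp h1)]
  · rw [if_neg h1, if_neg (fun h2 => h1 (hiff.mpr h2))]

end DUNWaux

open DUNWaux in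
/-- The negative direction. -/
theorem neg_omega (T : Mach R Q W) (hT : ¬ Halts T) :
    (AmW T).Nonempty ∧ Closed T (AmW T) ∧
      ∃ (bt : ((ℕ → El R Q) → El R Q) → El R Q) (a0 a1 a2 : ℕ → El R Q),
        a0 ∈ AmW T ∧ a1 ∈ AmW T ∧ a2 ∈ AmW T ∧
        (∀ h h', h a0 = h' a0 → h a1 = h' a1 → h a2 = h' a2 → bt h = bt h') ∧
        (∀ (n : ℕ) (h : Fin n → (ℕ → El R Q) → El R Q), (∀ i, HomOn T (AmW T) (h i)) →
          ∃ a ∈ AmW T, ∀ i, bt (h i) = h i a) ∧
        ¬ ∃ a ∈ AmW T, ∀ j : ℕ, bt (fun a => a j) = a j := by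
  have hA := AmW_closed T hT
  refine ⟨⟨wdW R Q 0, DUNW8aux.wd_mem T 0⟩, hA, bt R Q, wdW R Q 0, wdW R Q 1, wdW R Q 1,
    DUNW8aux.wd_mem T 0, DUNW8aux.wd_mem T 1, DUNW8aux.wd_mem T 1, ?_, ?_, ?_⟩
  · intro h h' h0 h1 _
    unfold bt
    rw [h0, h1]
  · intro n h hh
    exact bt_local T hA n h hh
  · rintro ⟨a, ⟨_, _, _, _, haf⟩, ha⟩
    have hd : ∀ j, (a j).f = .dlt := by
      intro j
      rw [← ha j]
      show (if ptrW 0 j = .st ∧ ptrW 1 j = .st then Sym.bot else Sym.dlt) = Sym.dlt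
      rw [if_neg]
      rintro ⟨h0, h1⟩
      rw [DUNW8aux.ptr_eq_st] at h0 h1
      omega
    rcases haf with ⟨x, hx⟩ | ⟨q, P, -, -, -, -, -, hf⟩
    · rw [hd x] at hx
      cases hx
    · have h1 := hf 0
      simp only [hd 0] at h1
      cases h1

end Pool.Agent.Helper70.DU
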